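import Pool.Agent.U798.FA.E

/-! One arc is enough. -/

set_option autoImplicit false

open MeasureTheory Set Topology Filter
open Pool.Agent.H807R2.Dav
open Pool.Agent.U798.MN
open scoped Real

namespace Pool.Agent.U798.FA

lemma mass_sym_cell (μ : Measure UnitAddCircle) [NullSingletonClass μ] (h : Sym μ) (N d : ℕ)
    (hd : d < N) : μ.real (arc ((d : ℝ) / N) (((d : ℝ) + 1) / N)) =
      μ.real (arc (((N - 1 - d : ℕ) : ℝ) / N) ((((N - 1 - d : ℕ) : ℝ) + 1) / N)) := by
  have hN0 : (0 : ℝ) < N := by exact_mod_cast (by omega : 0 < N)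
  have hd1 : (d : ℝ) + 1 ≤ N := by exact_mod_cast hd
  rw [mass_sym μ h _ _ (by positivity) (by rw [div_le_one hN0]; exact hd1)]
  have e : ((N - 1 - d : ℕ) : ℝ) = N - 1 - d := by
    rw [Nat.cast_sub (by omega), Nat.cast_sub (by omega)]
    push_cast
    ring
  rw [e]
  congr 2
  · field_simp; ring
  · field_simp; ring

/-- **One arc is enough.** -/
theorem one_arc (p q N a c : ℕ) (hN : N = 3 ∨ N = 4 ∨ (N = 6 ∧ p = 2)) (hac : a < c) (hc : c ≤ N)
    (hne : ¬ (N ∣ 2 * a ∧ N ∣ 2 * c)) :
    (∀ μ : Measure UnitAddCircle, Joint p q μ →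
      μ.real (arc ((a : ℝ) / N) ((c : ℝ) / N)) = ((c : ℝ) - a) / N) ↔
    ∀ μ : Measure UnitAddCircle, Joint p q μ → μ = (volume : Measure UnitAddCircle) := by
  have hN0 : (0 : ℝ) < N := by exact_mod_cast (by omega : 0 < N)
  constructor
  · intro h μ hμ
    have hs := joint_sy hμ
    obtain ⟨h1, h2, -, -⟩ := hμ
    have hsn := hs.2.1
    apply of_sy
    refine eq_vol N (by omega) (sy μ) fun k hk => ?_
    have hk0 : (k : ℤ) ≠ 0 := by exact_mod_cast (by omega : k ≠ 0)
    have hκ := joint_dil (k : ℤ) hk0 hs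
    have hsym := sym_dil (k : ℤ) _ (sym_sy μ)
    have hmass := h _ hκ
    obtain ⟨g1, g2, g3, -⟩ := hκ
    generalize dil (k : ℤ) (sy μ) = κ at *
    rw [mass_sum κ N a c (by omega) hac.le hc] at hmass
    have htot := mass_sum κ N 0 N (by omega) (Nat.zero_le N) le_rfl
    rw [Nat.cast_zero, zero_div, div_self hN0.ne', mass_total] at htot
    have hsc := mass_sym_cell κ hsym N
    rcases hN with rfl | rfl | ⟨rfl, rfl⟩
    · refine solve3 (fun d : ℕ => κ.real (arc ((d : ℝ) / (3 : ℕ)) (((d : ℝ) + 1) / (3 : ℕ)))) a c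
        hac hc hne (hsc 0 (by norm_num)) ?_ hmass
      rw [← Finset.range_eq_Ico, Finset.sum_range_succ, Finset.sum_range_succ,
        Finset.sum_range_one] at htot
      exact htot.symm
    · refine solve4 (fun d : ℕ => κ.real (arc ((d : ℝ) / (4 : ℕ)) (((d : ℝ) + 1) / (4 : ℕ)))) a c
        hac hc hne (hsc 0 (by norm_num)) (hsc 1 (by norm_num)) ?_ hmass
      rw [← Finset.range_eq_Ico, Finset.sum_range_succ, Finset.sum_range_succ,
        Finset.sum_range_succ, Finset.sum_range_one] at htot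
      exact htot.symm
    · refine solve6 (fun d : ℕ => κ.real (arc ((d : ℝ) / (6 : ℕ)) (((d : ℝ) + 1) / (6 : ℕ)))) a c
        hac hc hne (hsc 0 (by norm_num)) (hsc 1 (by norm_num)) (hsc 2 (by norm_num)) ?_ ?_ hmass
      · have t1 := mass_two κ g3 0 (1 / 3) le_rfl (by norm_num)
        have t2 := mass_sum κ 6 0 2 (by norm_num) (by norm_num) (by norm_num)
        rw [← Finset.range_eq_Ico, Finset.sum_range_succ, Finset.sum_range_one] at t2
        have e1 : arc (((0 : ℕ) : ℝ) / (6 : ℕ)) (((2 : ℕ) : ℝ) / (6 : ℕ)) = arc 0 (1 / 3) := by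
          congr 1 <;> norm_num
        have e2 : arc (0 / 2) (1 / 3 / 2) =
            arc (((0 : ℕ) : ℝ) / (6 : ℕ)) ((((0 : ℕ) : ℝ) + 1) / (6 : ℕ)) := by
          congr 1 <;> norm_num
        have e3 : arc ((1 + 0) / 2) ((1 + 1 / 3) / 2) =
            arc (((3 : ℕ) : ℝ) / (6 : ℕ)) ((((3 : ℕ) : ℝ) + 1) / (6 : ℕ)) := by
          congr 1 <;> norm_num
        rw [e1] at t2
        rw [e2, e3, t2] at t1
        linarith
      · rw [← Finset.range_eq_Ico, Finset.sum_range_succ, Finset.sum_range_succ,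
          Finset.sum_range_succ, Finset.sum_range_succ, Finset.sum_range_succ,
          Finset.sum_range_one] at htot
        exact htot.symm
  · intro h μ hμ
    have hac' : (a : ℝ) ≤ c := by exact_mod_cast hac.le
    have hc' : (c : ℝ) ≤ N := by exact_mod_cast hc
    rw [h μ hμ, vol_arc _ _ (by positivity) (div_le_div_of_nonneg_right hac' hN0.le)
      (by rw [div_le_one hN0]; exact hc')]
    ring

/-- symmetric measures and half circles -/
theorem sym_iff (μ : Measure UnitAddCircle) [IsProbabilityMeasure μ] [NullSingletonClass μ] :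
    Sym μ ↔ ∀ k : ℕ, 1 ≤ k → (dil k μ).real (arc 0 (1 / 2)) = 1 / 2 := by
  constructor
  · intro h k hk
    have hk0 : (k : ℤ) ≠ 0 := by exact_mod_cast (by omega : k ≠ 0)
    have := noAtoms_dil k hk0 μ
    have h1 := mass_sym (dil k μ) (sym_dil k μ h) 0 (1 / 2) le_rfl (by norm_num)
    have h2 := mass_add (dil k μ) 0 (1 / 2) 1 le_rfl (by norm_num) (by norm_num) le_rfl
    rw [mass_total] at h2
    have e : arc (1 - 1 / 2) (1 - 0) = arc (1 / 2) 1 := by congr 1 <;> norm_num
    rw [e] at h1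
    linarith
  · intro h
    have hd : ∀ n : ℤ, ∫ x, fourier n x ∂(dil (-1) μ) = ∫ x, fourier (-n) x ∂μ := by
      intro n
      rw [dil_fourier, neg_one_mul]
    have e0 : μ.map (fun x => -x) = dil (-1) μ := by
      unfold dil
      congr 1
      funext x
      rw [neg_smul, one_smul]
    unfold Sym
    rw [e0]
    apply fourier_ext_pos
    intro n hn
    have hn0 : (n : ℤ) ≠ 0 := by exact_mod_cast (by omega : n ≠ 0)
    have hnn0 : (-(n : ℤ)) ≠ 0 := neg_ne_zero.2 hn0
    have := noAtoms_dil n hn0 μ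
    have := noAtoms_dil (-(n : ℤ)) hnn0 μ
    -- the masses of the half circles
    have hhalf : ∀ k : ℕ, 1 ≤ k → ∀ m : ℤ, m = n ∨ m = -(n : ℤ) →
        (dil k (dil m μ)).real (arc 0 (1 / 2)) = 1 / 2 := by
      intro k hk m hm
      rcases hm with rfl | rfl
      · rw [dil_dil, ← Nat.cast_mul]
        exact h (k * n) (Nat.mul_pos hk hn)
      · have e1 : dil k (dil (-(n : ℤ)) μ) = (dil ((k * n : ℕ) : ℤ) μ).map (fun x => -x) := by
          rw [dil_dil]
          unfold dil
          rw [Measure.map_map measurable_neg (meas_zsmul _)]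
          congr 1
          funext x
          simp only [Function.comp]
          push_cast
          rw [mul_neg, neg_smul]
        have hkn : 1 ≤ k * n := Nat.mul_pos hk hn
        have hkn0 : ((k * n : ℕ) : ℤ) ≠ 0 := by exact_mod_cast (by omega : k * n ≠ 0)
        have := noAtoms_dil ((k * n : ℕ) : ℤ) hkn0 μ
        rw [e1, map_measureReal_apply measurable_neg (meas_arc 0 (1 / 2) le_rfl (by norm_num)),
          mass_neg _ 0 (1 / 2) le_rfl (by norm_num)]
        have h2 := mass_add (dil ((k * n : ℕ) : ℤ) μ) 0 (1 / 2) 1 le_rfl (by norm_num)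
          (by norm_num) le_rfl
        rw [mass_total, h (k * n) hkn] at h2
        have e : arc (1 - 1 / 2) (1 - 0) = arc (1 / 2) 1 := by congr 1 <;> norm_num
        rw [e]
        linarith
    have hcell : ∀ m : ℤ, m = n ∨ m = -(n : ℤ) → ∀ k : ℕ, 1 ≤ k → ∀ d : ℕ, d < 2 →
        (law (dil m μ)).real (cell 2 k d) = 1 / 2 := by
      intro m hm k hk d hd
      have hd1 : (d : ℝ) + 1 ≤ 2 := by exact_mod_cast hd
      rw [law_cell _ 2 k d (by norm_num) hd, ← real_dil k (dil m μ) _
        (meas_arc _ _ (by positivity) (by push_cast; linarith))]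
      have h1 := hhalf k hk m hm
      have hd2 : d = 0 ∨ d = 1 := by omega
      rcases hd2 with rfl | rfl
      · have e : arc (((0 : ℕ) : ℝ) / (2 : ℕ)) ((((0 : ℕ) : ℝ) + 1) / (2 : ℕ)) = arc 0 (1 / 2) := by
          congr 1 <;> norm_num
        rw [e, h1]
      · have e : arc (((1 : ℕ) : ℝ) / (2 : ℕ)) ((((1 : ℕ) : ℝ) + 1) / (2 : ℕ)) = arc (1 / 2) 1 := by
          congr 1 <;> norm_num
        have h2 := mass_add (dil k (dil m μ)) 0 (1 / 2) 1 le_rfl (by norm_num) (by norm_num) le_rfl
        rw [mass_total, h1] at h2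
        rw [e]
        linarith
    have key := meas_eq_two (law (dil n μ)) (law (dil (-(n : ℤ)) μ)) (ae_irrational _)
      (ae_irrational _) (fun k hk d hd => by
        rw [hcell n (Or.inl rfl) k hk d hd, hcell (-(n : ℤ)) (Or.inr rfl) k hk d hd])
    have htgt : ∀ ν : Measure UnitAddCircle, IsProbabilityMeasure ν →
        ∫ y, tgt (1 : DirichletCharacter ℂ 2) y ∂(law ν) =
          1 / (2 * π * Complex.I) * (∫ x, fourier 1 x ∂ν - ∫ x, fourier (-1) x ∂ν) := by
      intro ν hν
      unfold tgt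
      have h3 : (1 : DirichletCharacter ℂ 2) (-1) = 1 := MulChar.one_apply isUnit_one.neg
      rw [h3]
      have i1 := integral_law ν 1
      have i2 := integral_law ν (-1)
      have j1 := integrable_ee (law ν) 1
      have j2 := integrable_ee (law ν) (-1)
      simp only [Int.cast_one, one_mul, Int.cast_neg, neg_one_mul] at i1 i2 j1 j2
      rw [integral_const_mul, ← i1, ← i2]
      congr 1
      rw [← integral_sub j1 j2]
      simp only [one_mul]
    rw [htgt _ inferInstance, htgt _ inferInstance, dil_fourier, dil_fourier, dil_fourier,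
      dil_fourier] at key
    have hpi : (π : ℂ) ≠ 0 := by exact_mod_cast Real.pi_ne_zero
    have hc0 : (1 / (2 * π * Complex.I) : ℂ) ≠ 0 := by
      apply one_div_ne_zero
      exact mul_ne_zero (mul_ne_zero two_ne_zero hpi) Complex.I_ne_zero
    have key2 := mul_left_cancel₀ hc0 key
    simp only [mul_one, mul_neg, neg_neg] at key2
    rw [hd]
    have h4 : (2 : ℂ) * ∫ x, fourier (-(n : ℤ)) x ∂μ = 2 * ∫ x, fourier (n : ℤ) x ∂μ := by
      linear_combination (-1 : ℂ) * key2
    exact mul_left_cancel₀ two_ne_zero h4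

/-- half circles and symmetry for all the invariant measures -/
theorem half_arc (p q : ℕ) :
    (∀ μ : Measure UnitAddCircle, Joint p q μ → μ.real (arc 0 (1 / 2)) = 1 / 2) ↔
    ∀ μ : Measure UnitAddCircle, Joint p q μ → Sym μ := by
  constructor
  · intro h μ hμ
    have h1 := hμ.1
    have h2 := hμ.2.1
    rw [sym_iff]
    intro k hk
    exact h _ (joint_dil (k : ℤ) (by exact_mod_cast (by omega : k ≠ 0)) hμ)
  · intro h μ hμ
    have h1 := hμ.1
    have h2 := hμ.2.1
    have h3 := (sym_iff μ).1 (h μ hμ) 1 le_rfl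
    have e : dil ((1 : ℕ) : ℤ) μ = μ := by
      unfold dil
      simp only [Nat.cast_one, one_smul, Measure.map_id']
    rwa [e] at h3

/-- an atomless measure is determined by the dilates of the arc `[0, 1 / 3)` -/
theorem one_third (μ ν : Measure UnitAddCircle) [IsProbabilityMeasure μ]
    [IsProbabilityMeasure ν] [NullSingletonClass μ] [NullSingletonClass ν]
    (h : ∀ k : ℤ, k ≠ 0 → (dil k μ).real (arc 0 (1 / 3)) = (dil k ν).real (arc 0 (1 / 3))) :
    μ = ν := by
  refine determined 3 le_rfl μ ν fun k hk => ?_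
  have hk0 : (k : ℤ) ≠ 0 := by exact_mod_cast (by omega : k ≠ 0)
  have hfirst := h k hk0
  have hlast : (dil k μ).real (arc (2 / 3) 1) = (dil k ν).real (arc (2 / 3) 1) := by
    have hneg : ∀ ρ : Measure UnitAddCircle, IsProbabilityMeasure ρ → NullSingletonClass ρ →
        (dil (-(k : ℤ)) ρ).real (arc 0 (1 / 3)) = (dil k ρ).real (arc (2 / 3) 1) := by
      intro ρ hρ1 hρ2
      have := noAtoms_dil k hk0 ρ
      have e1 : dil (-(k : ℤ)) ρ = (dil k ρ).map (fun x => -x) := by
        unfold dil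
        rw [Measure.map_map measurable_neg (meas_zsmul _)]
        congr 1
        funext x
        simp only [Function.comp]
        rw [neg_smul]
      rw [e1, map_measureReal_apply measurable_neg (meas_arc 0 (1 / 3) le_rfl (by norm_num)),
        mass_neg _ 0 (1 / 3) le_rfl (by norm_num)]
      congr 2
      all_goals norm_num
    rw [← hneg μ inferInstance inferInstance, ← hneg ν inferInstance inferInstance]
    exact h _ (neg_ne_zero.2 hk0)
  have htot : ∀ ρ : Measure UnitAddCircle, IsProbabilityMeasure ρ →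
      ρ.real (arc (1 / 3) (2 / 3)) = 1 - ρ.real (arc 0 (1 / 3)) - ρ.real (arc (2 / 3) 1) := by
    intro ρ hρ
    have h1 := mass_add ρ 0 (1 / 3) 1 le_rfl (by norm_num) (by norm_num) le_rfl
    have h2 := mass_add ρ (1 / 3) (2 / 3) 1 (by norm_num) (by norm_num) (by norm_num) le_rfl
    rw [mass_total] at h1
    linarith
  intro d hd
  have hd1 : (d : ℝ) + 1 ≤ 3 := by exact_mod_cast hd
  have hA := meas_arc ((d : ℝ) / (3 : ℕ)) (((d : ℝ) + 1) / (3 : ℕ)) (by positivity)
    (by push_cast; linarith)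
  rw [← real_dil k μ _ hA, ← real_dil k ν _ hA]
  interval_cases d
  · have e : arc (((0 : ℕ) : ℝ) / (3 : ℕ)) ((((0 : ℕ) : ℝ) + 1) / (3 : ℕ)) = arc 0 (1 / 3) := by
      congr 1 <;> norm_num
    rw [e, hfirst]
  · have e : arc (((1 : ℕ) : ℝ) / (3 : ℕ)) ((((1 : ℕ) : ℝ) + 1) / (3 : ℕ)) = arc (1 / 3) (2 / 3) := by
      congr 1 <;> norm_num
    rw [e, htot _ inferInstance, htot _ inferInstance, hfirst, hlast]
  · have e : arc (((2 : ℕ) : ℝ) / (3 : ℕ)) ((((2 : ℕ) : ℝ) + 1) / (3 : ℕ)) = arc (2 / 3) 1 := by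
      congr 1 <;> norm_num
    rw [e, hlast]

end Pool.Agent.U798.FA
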