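import Pool.Agent.U798.MN.E1

/-! Measures and the masses of the dilates of the arcs `[d / b, (d + 1) / b)`. -/

set_option autoImplicit false

open Finset MeasureTheory Filter Topology
open Pool.Agent.H807R2.Dav
open Pool.Agent.H373R2.T7 (muR muR_abs)
open Pool.Agent.U798.MN
open scoped Real

namespace Pool.Agent.U798.FA

variable {b : ℕ}

/-- the `y` for which `k y` modulo one lies in `[d / b, (d + 1) / b)` -/
def cell (b k d : ℕ) : Set ℝ :=
  {y | (d : ℝ) / b ≤ Int.fract (k * y) ∧ Int.fract (k * y) < ((d : ℝ) + 1) / b}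

lemma meas_fract (k : ℕ) : Measurable fun y : ℝ => Int.fract ((k : ℝ) * y) :=
  measurable_fract.comp (measurable_const.mul measurable_id)

lemma meas_cell (b k d : ℕ) : MeasurableSet (cell b k d) :=
  (measurableSet_le measurable_const (meas_fract k)).inter
    (measurableSet_lt (meas_fract k) measurable_const)

lemma dig_cell (hb : 2 ≤ b) (χ : DirichletCharacter ℂ b) (k : ℕ) (y : ℝ) : dig χ (k * y) =
    -∑ j ∈ range b, wt χ j * ∑ d ∈ Ico (b - j) b,
      (((cell b k d).indicator (fun _ => (1 : ℝ)) y : ℝ) - 1 / b : ℂ) := by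
  have h2 : ∑ j ∈ range b, wt χ j * ((saw (k * y) : ℝ) : ℂ) = 0 := by
    rw [← sum_mul, wt_total hb, zero_mul]
  unfold dig
  rw [← sub_zero (∑ j ∈ range b, wt χ j * ((saw (k * y + j / b) : ℝ) : ℂ)), ← h2,
    ← sum_sub_distrib, ← sum_neg_distrib]
  refine sum_congr rfl fun j hj => ?_
  rw [← mul_sub, ← mul_neg]
  congr 1
  rw [← Complex.ofReal_sub, saw_digit hb j (mem_range.1 hj)]
  push_cast
  congr 1
  refine sum_congr rfl fun d _ => ?_
  congr 1
  unfold cell Set.indicator
  simp only [Set.mem_ofPred_eq]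

lemma integrable_ind (P : Measure ℝ) [IsProbabilityMeasure P] (k d : ℕ) :
    Integrable (fun y => (((cell b k d).indicator (fun _ => (1 : ℝ)) y : ℝ) : ℂ)) P :=
  ((integrable_const (1 : ℝ)).indicator (meas_cell b k d)).ofReal

lemma integrable_dig (hb : 2 ≤ b) (χ : DirichletCharacter ℂ b) (P : Measure ℝ)
    [IsProbabilityMeasure P] (k : ℕ) : Integrable (fun y : ℝ => dig χ (k * y)) P := by
  simp_rw [dig_cell hb]
  refine (integrable_finsetSum _ fun j _ => ?_).neg
  refine Integrable.const_mul (integrable_finsetSum _ fun d _ => ?_) _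
  exact (integrable_ind P k d).sub (integrable_const _)

lemma integral_dig (hb : 2 ≤ b) (χ : DirichletCharacter ℂ b) (P : Measure ℝ)
    [IsProbabilityMeasure P] (k : ℕ) : ∫ y, dig χ (k * y) ∂P =
      -∑ j ∈ range b, wt χ j * ∑ d ∈ Ico (b - j) b, ((P.real (cell b k d) : ℝ) - 1 / b : ℂ) := by
  simp_rw [dig_cell hb]
  rw [integral_neg, integral_finsetSum]
  · congr 1
    refine sum_congr rfl fun j _ => ?_
    rw [integral_const_mul, integral_finsetSum]
    · congr 1
      refine sum_congr rfl fun d _ => ?_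
      rw [integral_sub (integrable_ind P k d) (integrable_const _), integral_const,
        integral_complex_ofReal, integral_indicator_const _ (meas_cell b k d)]
      simp
    · intro d _
      exact (integrable_ind P k d).sub (integrable_const _)
  · intro j _
    refine Integrable.const_mul (integrable_finsetSum _ fun d _ => ?_) _
    exact (integrable_ind P k d).sub (integrable_const _)

lemma dig_diff (hb : 2 ≤ b) (χ : DirichletCharacter ℂ b) (P Q : Measure ℝ)
    [IsProbabilityMeasure P] [IsProbabilityMeasure Q] (k : ℕ) (δ : ℝ) (hδ : 0 ≤ δ)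
    (h : ∀ d : ℕ, d < b → |P.real (cell b k d) - Q.real (cell b k d)| ≤ δ) :
    ‖∫ y, dig χ (k * y) ∂P - ∫ y, dig χ (k * y) ∂Q‖ ≤ (b : ℝ) ^ 2 * δ := by
  rw [integral_dig hb, integral_dig hb]
  have e : -∑ j ∈ range b, wt χ j * ∑ d ∈ Ico (b - j) b, ((P.real (cell b k d) : ℝ) - 1 / b : ℂ) -
      -∑ j ∈ range b, wt χ j * ∑ d ∈ Ico (b - j) b, ((Q.real (cell b k d) : ℝ) - 1 / b : ℂ) =
      -∑ j ∈ range b, wt χ j * ∑ d ∈ Ico (b - j) b,
        (((P.real (cell b k d) - Q.real (cell b k d) : ℝ)) : ℂ) := by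
    rw [neg_sub_neg, ← sum_sub_distrib, ← sum_neg_distrib]
    refine sum_congr rfl fun j _ => ?_
    rw [← mul_sub, ← sum_sub_distrib, ← mul_neg, ← sum_neg_distrib]
    congr 1
    refine sum_congr rfl fun d _ => ?_
    push_cast
    ring
  rw [e, norm_neg]
  refine (norm_sum_le _ _).trans ?_
  calc ∑ j ∈ range b, ‖wt χ j * ∑ d ∈ Ico (b - j) b,
        (((P.real (cell b k d) - Q.real (cell b k d) : ℝ)) : ℂ)‖
      ≤ ∑ j ∈ range b, (b : ℝ) * δ := by
        refine sum_le_sum fun j _ => ?_
        rw [norm_mul]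
        have h1 : ‖∑ d ∈ Ico (b - j) b, (((P.real (cell b k d) - Q.real (cell b k d) : ℝ)) : ℂ)‖ ≤
            b * δ := by
          refine (norm_sum_le _ _).trans ?_
          calc ∑ d ∈ Ico (b - j) b, ‖(((P.real (cell b k d) - Q.real (cell b k d) : ℝ)) : ℂ)‖
              ≤ ∑ d ∈ Ico (b - j) b, δ := by
                refine sum_le_sum fun d hd => ?_
                rw [Complex.norm_real, Real.norm_eq_abs]
                exact h d (mem_Ico.1 hd).2
            _ ≤ b * δ := by
                rw [sum_const, Nat.card_Ico, nsmul_eq_mul]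
                apply mul_le_mul_of_nonneg_right _ hδ
                have : b - (b - j) ≤ b := by omega
                exact_mod_cast this
        calc ‖wt χ j‖ * _ ≤ 1 * (b * δ) := mul_le_mul (norm_wt χ j) h1 (norm_nonneg _) zero_le_one
          _ = b * δ := one_mul _
    _ = (b : ℝ) ^ 2 * δ := by
        rw [sum_const, card_range, nsmul_eq_mul]
        ring

lemma integrable_ser (hb : 2 ≤ b) (χ : DirichletCharacter ℂ b) (P : Measure ℝ)
    [IsProbabilityMeasure P] (K : ℕ) : Integrable (fun y : ℝ => ser χ K y) P := by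
  unfold ser term
  refine integrable_finsetSum _ fun k _ => ?_
  exact ((integrable_dig hb χ P k).const_mul _).div_const _

lemma cont_ee : Continuous ee := by
  unfold ee
  fun_prop

lemma integrable_ee (P : Measure ℝ) [IsProbabilityMeasure P] (c : ℝ) :
    Integrable (fun y : ℝ => ee (c * y)) P := by
  refine Integrable.of_bound (C := 1)
    (cont_ee.comp (continuous_const.mul continuous_id)).aestronglyMeasurable ?_
  refine Eventually.of_forall fun y => ?_
  exact (norm_ee _).le

end Pool.Agent.U798.FA
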