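import Pool.Agent.U798.FA.A

/-! Fourier coefficients of measures from the masses of the dilates of arcs. -/

set_option autoImplicit false

open Finset MeasureTheory Filter Topology
open Pool.Agent.H807R2.Dav
open Pool.Agent.H373R2.T7 (muR muR_abs)
open Pool.Agent.U798.MN
open scoped Real

namespace Pool.Agent.U798.FA

variable {b : ℕ}

lemma ser_diff (hb : 2 ≤ b) (χ : DirichletCharacter ℂ b) (P Q : Measure ℝ)
    [IsProbabilityMeasure P] [IsProbabilityMeasure Q] (K : ℕ) (δ : ℝ) (hδ : 0 ≤ δ)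
    (h : ∀ k : ℕ, 1 ≤ k → k ≤ K → ∀ d : ℕ, d < b →
      |P.real (cell b k d) - Q.real (cell b k d)| ≤ δ) :
    ‖∫ y, ser χ K y ∂P - ∫ y, ser χ K y ∂Q‖ ≤ (1 + Real.log K) * ((b : ℝ) ^ 2 * δ) := by
  have e : ∀ M : Measure ℝ, IsProbabilityMeasure M → ∫ y, ser χ K y ∂M =
      ∑ k ∈ Icc 1 K, (((muR k : ℝ) : ℂ) * χ (k : ZMod b) / k) * ∫ y, dig χ (k * y) ∂M := by
    intro M hM
    unfold ser term
    rw [integral_finsetSum]
    · refine sum_congr rfl fun k _ => ?_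
      rw [← integral_const_mul]
      refine integral_congr_ae (Eventually.of_forall fun y => ?_)
      simp only
      ring
    · intro k _
      exact ((integrable_dig hb χ M k).const_mul _).div_const _
  rw [e P inferInstance, e Q inferInstance, ← sum_sub_distrib]
  refine (norm_sum_le _ _).trans ?_
  calc _ ≤ ∑ k ∈ Icc 1 K, 1 / (k : ℝ) * ((b : ℝ) ^ 2 * δ) := by
        refine sum_le_sum fun k hk => ?_
        rw [mem_Icc] at hk
        have hk0 : (0 : ℝ) < k := by exact_mod_cast hk.1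
        rw [← mul_sub, norm_mul]
        apply mul_le_mul _ (dig_diff hb χ P Q k δ hδ (h k hk.1 hk.2)) (norm_nonneg _)
          (by positivity)
        rw [norm_div, norm_mul, Complex.norm_real, Real.norm_eq_abs, Complex.norm_natCast]
        apply div_le_div_of_nonneg_right _ hk0.le
        calc |muR k| * ‖χ (k : ZMod b)‖ ≤ 1 * 1 :=
              mul_le_mul (muR_abs k) (norm_chi χ _) (norm_nonneg _) zero_le_one
          _ = 1 := one_mul _
    _ ≤ (1 + Real.log K) * ((b : ℝ) ^ 2 * δ) := by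
        rw [← sum_mul]
        exact mul_le_mul_of_nonneg_right (sum_inv_le K) (by positivity)

lemma integrable_tgt (χ : DirichletCharacter ℂ b) (P : Measure ℝ) [IsProbabilityMeasure P] :
    Integrable (fun y : ℝ => tgt χ y) P := by
  have h1 := integrable_ee P 1
  have h2 := integrable_ee P (-1)
  simp only [one_mul] at h1
  unfold tgt
  refine Integrable.const_mul (h1.sub ?_) _
  refine (h2.const_mul (χ (-1))).congr (Eventually.of_forall fun y => ?_)
  simp only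
  rw [neg_one_mul]

/-- the difference of the integrals of `tgt` -/
lemma tgt_diff (hb : 2 ≤ b) (χ : DirichletCharacter ℂ b) (P Q : Measure ℝ)
    [IsProbabilityMeasure P] [IsProbabilityMeasure Q] (hP : ∀ᵐ y ∂P, Irrational y)
    (hQ : ∀ᵐ y ∂Q, Irrational y) (K : ℕ) (δ r : ℝ) (hδ : 0 ≤ δ)
    (hr : ∀ y : ℝ, Irrational y → ‖tgt χ y - ser χ K y‖ ≤ r)
    (h : ∀ k : ℕ, 1 ≤ k → k ≤ K → ∀ d : ℕ, d < b →
      |P.real (cell b k d) - Q.real (cell b k d)| ≤ δ) :
    ‖∫ y, tgt χ y ∂P - ∫ y, tgt χ y ∂Q‖ ≤ 2 * r + (1 + Real.log K) * ((b : ℝ) ^ 2 * δ) := by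
  have h1 : ∀ M : Measure ℝ, IsProbabilityMeasure M → (∀ᵐ y ∂M, Irrational y) →
      ‖∫ y, tgt χ y ∂M - ∫ y, ser χ K y ∂M‖ ≤ r := by
    intro M hM hirr
    rw [← integral_sub (integrable_tgt χ M) (integrable_ser hb χ M K)]
    have := norm_integral_le_of_norm_le_const (μ := M) (C := r)
      (f := fun y => tgt χ y - ser χ K y) (hirr.mono fun y hy => hr y hy)
    simpa using this
  have e : ∫ y, tgt χ y ∂P - ∫ y, tgt χ y ∂Q =
      (∫ y, tgt χ y ∂P - ∫ y, ser χ K y ∂P) - (∫ y, tgt χ y ∂Q - ∫ y, ser χ K y ∂Q) +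
        (∫ y, ser χ K y ∂P - ∫ y, ser χ K y ∂Q) := by ring
  rw [e]
  have h2 := h1 P inferInstance hP
  have h3 := h1 Q inferInstance hQ
  have h4 := ser_diff hb χ P Q K δ hδ h
  refine (norm_add_le _ _).trans ?_
  have h5 := norm_sub_le (∫ y, tgt χ y ∂P - ∫ y, ser χ K y ∂P)
    (∫ y, tgt χ y ∂Q - ∫ y, ser χ K y ∂Q)
  linarith

/-- the first Fourier coefficients of two measures without rational atoms differ by little, if the
masses of the dilates of the arcs `[d / b, (d + 1) / b)` differ by little -/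
theorem meas_bound (hb : 3 ≤ b) (U : ℕ) : ∃ (C : ℝ) (K0 : ℕ), 1 ≤ C ∧ 3 ≤ K0 ∧
    ∀ K : ℕ, K0 ≤ K → ∀ (P Q : Measure ℝ) [IsProbabilityMeasure P] [IsProbabilityMeasure Q],
      (∀ᵐ y ∂P, Irrational y) → (∀ᵐ y ∂Q, Irrational y) → ∀ δ : ℝ, 0 ≤ δ →
      (∀ k : ℕ, 1 ≤ k → k ≤ K → ∀ d : ℕ, d < b →
        |P.real (cell b k d) - Q.real (cell b k d)| ≤ δ) →
      ‖∫ y, ee y ∂P - ∫ y, ee y ∂Q‖ ≤
        C * (δ * (1 + Real.log K) + 1 / Real.log K ^ (U + 1)) := by
  obtain ⟨χ1, hχ1⟩ := exists_odd hb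
  obtain ⟨C0, K0, hC0, hK0, h0⟩ := ser_limit (by omega) (1 : DirichletCharacter ℂ b) U
  obtain ⟨C1, K1, hC1, hK1, h1⟩ := ser_limit (by omega) χ1 U
  have hb0 : (0 : ℝ) < b := by exact_mod_cast (by omega : 0 < b)
  have hb3 : (3 : ℝ) ≤ b := by exact_mod_cast hb
  refine ⟨8 * (C0 + C1 + (b : ℝ) ^ 2), max K0 K1, by nlinarith, hK0.trans (le_max_left _ _), ?_⟩
  intro K hK P Q _ _ hP hQ δ hδ hcell
  have hK3 : 3 ≤ K := hK0.trans ((le_max_left _ _).trans hK)
  have hlogK1 : 0 < Real.log K := Real.log_pos (by exact_mod_cast (by omega : 1 < K))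
  have g0 := tgt_diff (by omega) 1 P Q hP hQ K δ _ hδ
    (fun y hy => h0 K ((le_max_left _ _).trans hK) y hy) hcell
  have g1 := tgt_diff (by omega) χ1 P Q hP hQ K δ _ hδ
    (fun y hy => h1 K ((le_max_right _ _).trans hK) y hy) hcell
  have hpi : (π : ℂ) ≠ 0 := by exact_mod_cast Real.pi_ne_zero
  have hee : ∀ y : ℝ, ee y = (π * Complex.I) * (tgt (1 : DirichletCharacter ℂ b) y + tgt χ1 y) := by
    intro y
    unfold tgt
    rw [hχ1]
    have h3 : (1 : DirichletCharacter ℂ b) (-1) = 1 := MulChar.one_apply isUnit_one.neg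
    rw [h3]
    field_simp
    ring
  have hint : ∀ M : Measure ℝ, IsProbabilityMeasure M → ∫ y, ee y ∂M =
      (π * Complex.I) * (∫ y, tgt (1 : DirichletCharacter ℂ b) y ∂M + ∫ y, tgt χ1 y ∂M) := by
    intro M hM
    rw [← integral_add (integrable_tgt _ M) (integrable_tgt _ M), ← integral_const_mul]
    exact integral_congr_ae (Eventually.of_forall fun y => hee y)
  rw [hint P inferInstance, hint Q inferInstance, ← mul_sub, norm_mul, norm_mul, Complex.norm_I,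
    Complex.norm_real, Real.norm_of_nonneg Real.pi_pos.le, mul_one]
  have e : ∫ y, tgt (1 : DirichletCharacter ℂ b) y ∂P + ∫ y, tgt χ1 y ∂P -
      (∫ y, tgt (1 : DirichletCharacter ℂ b) y ∂Q + ∫ y, tgt χ1 y ∂Q) =
      (∫ y, tgt (1 : DirichletCharacter ℂ b) y ∂P - ∫ y, tgt (1 : DirichletCharacter ℂ b) y ∂Q) +
        (∫ y, tgt χ1 y ∂P - ∫ y, tgt χ1 y ∂Q) := by ring
  rw [e]
  have g2 := norm_add_le
    (∫ y, tgt (1 : DirichletCharacter ℂ b) y ∂P - ∫ y, tgt (1 : DirichletCharacter ℂ b) y ∂Q)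
    (∫ y, tgt χ1 y ∂P - ∫ y, tgt χ1 y ∂Q)
  set Lg := Real.log (K : ℝ) with hLg
  have hp : 0 < Lg ^ (U + 1) := by positivity
  have hpi4 := Real.pi_lt_four
  have hb2 : (0 : ℝ) ≤ (b : ℝ) ^ 2 := by positivity
  have q1 : 0 ≤ 1 / Lg ^ (U + 1) := by positivity
  have q2 : 0 ≤ δ * (1 + Lg) := by positivity
  have q3 : C0 / Lg ^ (U + 1) = C0 * (1 / Lg ^ (U + 1)) := by ring
  have q4 : C1 / Lg ^ (U + 1) = C1 * (1 / Lg ^ (U + 1)) := by ring
  rw [q3] at g0
  rw [q4] at g1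
  generalize 1 / Lg ^ (U + 1) = V at *
  have q5 : (1 + Lg) * ((b : ℝ) ^ 2 * δ) = (b : ℝ) ^ 2 * (δ * (1 + Lg)) := by ring
  rw [q5] at g0 g1
  generalize δ * (1 + Lg) = W at *
  have p1 := mul_nonneg hb2 q1
  have p2 := mul_nonneg hC0.le q2
  have p3 := mul_nonneg hC1.le q2
  calc π * _ ≤ 4 * ((2 * (C0 * V) + (b : ℝ) ^ 2 * W) + (2 * (C1 * V) + (b : ℝ) ^ 2 * W)) := by
        apply mul_le_mul hpi4.le (by linarith) (norm_nonneg _) (by norm_num)
    _ ≤ 8 * (C0 + C1 + (b : ℝ) ^ 2) * (W + V) := by nlinarith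

/-- the measures are determined by the masses of the dilates of the arcs -/
theorem meas_eq (hb : 3 ≤ b) (P Q : Measure ℝ) [IsProbabilityMeasure P] [IsProbabilityMeasure Q]
    (hP : ∀ᵐ y ∂P, Irrational y) (hQ : ∀ᵐ y ∂Q, Irrational y)
    (h : ∀ k : ℕ, 1 ≤ k → ∀ d : ℕ, d < b → P.real (cell b k d) = Q.real (cell b k d)) :
    ∫ y, ee y ∂P = ∫ y, ee y ∂Q := by
  obtain ⟨C, K0, hC, hK0, h0⟩ := meas_bound hb 0
  rw [← sub_eq_zero, ← norm_le_zero_iff]
  have hlim : Tendsto (fun K : ℕ => C * (0 * (1 + Real.log K) + 1 / Real.log K ^ (0 + 1))) atTop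
      (𝓝 0) := by
    have h1 : Tendsto (fun K : ℕ => C * (Real.log (K : ℝ))⁻¹) atTop (𝓝 (C * 0)) :=
      (tendsto_inv_atTop_zero.comp (Real.tendsto_log_atTop.comp tendsto_natCast_atTop_atTop)).const_mul C
    rw [mul_zero] at h1
    refine h1.congr fun K => ?_
    rw [zero_mul, zero_add, zero_add, pow_one, one_div]
  refine ge_of_tendsto hlim ?_
  filter_upwards [eventually_ge_atTop K0] with K hK
  exact h0 K hK P Q hP hQ 0 le_rfl fun k hk1 _ d hd => by rw [h k hk1 d hd, sub_self, abs_zero]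

/-- half circles: base two -/
theorem meas_eq_two (P Q : Measure ℝ) [IsProbabilityMeasure P] [IsProbabilityMeasure Q]
    (hP : ∀ᵐ y ∂P, Irrational y) (hQ : ∀ᵐ y ∂Q, Irrational y)
    (h : ∀ k : ℕ, 1 ≤ k → ∀ d : ℕ, d < 2 → P.real (cell 2 k d) = Q.real (cell 2 k d)) :
    ∫ y, tgt (1 : DirichletCharacter ℂ 2) y ∂P = ∫ y, tgt (1 : DirichletCharacter ℂ 2) y ∂Q := by
  obtain ⟨C, K0, hC, hK0, h0⟩ := ser_limit (by norm_num) (1 : DirichletCharacter ℂ 2) 0
  rw [← sub_eq_zero, ← norm_le_zero_iff]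
  have hlim : Tendsto (fun K : ℕ => 2 * (C / Real.log K ^ (0 + 1)) +
      (1 + Real.log K) * ((2 : ℕ) ^ 2 * 0)) atTop (𝓝 0) := by
    have h1 : Tendsto (fun K : ℕ => (2 * C) * (Real.log (K : ℝ))⁻¹) atTop (𝓝 ((2 * C) * 0)) :=
      (tendsto_inv_atTop_zero.comp
        (Real.tendsto_log_atTop.comp tendsto_natCast_atTop_atTop)).const_mul _
    rw [mul_zero] at h1
    refine h1.congr fun K => ?_
    rw [mul_zero, mul_zero, add_zero, zero_add, pow_one]
    ring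
  refine ge_of_tendsto hlim ?_
  filter_upwards [eventually_ge_atTop K0] with K hK
  have := tgt_diff (le_refl 2) 1 P Q hP hQ K 0 _ le_rfl (fun y hy => h0 K hK y hy)
    fun k hk1 _ d hd => by rw [h k hk1 d hd, sub_self, abs_zero]
  exact this

end Pool.Agent.U798.FA
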