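import Pool.Agent.U798.FA.B

/-! Measures on the circle and arcs. -/

set_option autoImplicit false

open MeasureTheory Set Topology Filter
open Pool.Agent.H807R2.Dav
open scoped Real

namespace Pool.Agent.U798.FA

/-- the arc from `α` (included) to `β` (excluded) -/
def arc (α β : ℝ) : Set UnitAddCircle := (fun t : ℝ => (t : UnitAddCircle)) '' Ico α β

/-- the representative in `[0, 1)` -/
noncomputable def rep (x : UnitAddCircle) : ℝ := (AddCircle.equivIco (1 : ℝ) 0 x : ℝ)

lemma rep_nonneg (x : UnitAddCircle) : 0 ≤ rep x := (AddCircle.equivIco (1 : ℝ) 0 x).2.1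

lemma rep_lt (x : UnitAddCircle) : rep x < 1 := by
  have h := (AddCircle.equivIco (1 : ℝ) 0 x).2.2
  have h2 : rep x < 0 + 1 := h
  linarith

lemma rep_coe (t : ℝ) : rep (t : UnitAddCircle) = Int.fract t := by
  unfold rep
  have := AddCircle.coe_equivIco_mk_apply (p := (1 : ℝ)) t
  rw [div_one, mul_one] at this
  exact this

lemma coe_rep (x : UnitAddCircle) : ((rep x : ℝ) : UnitAddCircle) = x :=
  (AddCircle.equivIco (1 : ℝ) 0).symm_apply_apply x

lemma meas_rep : Measurable rep :=
  measurable_subtype_coe.comp (AddCircle.measurableEquivIco (1 : ℝ) 0).measurable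

lemma coe_mem_arc (α β t : ℝ) (h0 : 0 ≤ α) (h1 : β ≤ 1) :
    (t : UnitAddCircle) ∈ arc α β ↔ α ≤ Int.fract t ∧ Int.fract t < β := by
  unfold arc
  constructor
  · rintro ⟨s, ⟨hs1, hs2⟩, hs⟩
    have h2 : rep (s : UnitAddCircle) = rep (t : UnitAddCircle) := congrArg rep hs
    rw [rep_coe, rep_coe, Int.fract_eq_self.2 ⟨by linarith, by linarith⟩] at h2
    rw [← h2]
    exact ⟨hs1, hs2⟩
  · rintro ⟨h2, h3⟩
    refine ⟨Int.fract t, ⟨h2, h3⟩, ?_⟩
    have := coe_rep (t : UnitAddCircle)
    rw [rep_coe] at this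
    exact this

lemma mem_arc (α β : ℝ) (x : UnitAddCircle) (h0 : 0 ≤ α) (h1 : β ≤ 1) :
    x ∈ arc α β ↔ α ≤ rep x ∧ rep x < β := by
  have h := coe_mem_arc α β (rep x) h0 h1
  rwa [coe_rep, Int.fract_eq_self.2 ⟨rep_nonneg x, rep_lt x⟩] at h

lemma meas_arc (α β : ℝ) (h0 : 0 ≤ α) (h1 : β ≤ 1) : MeasurableSet (arc α β) := by
  have : arc α β = {x | α ≤ rep x ∧ rep x < β} := by
    ext x
    exact mem_arc α β x h0 h1
  rw [this]
  exact (measurableSet_le measurable_const meas_rep).inter
    (measurableSet_lt meas_rep measurable_const)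

lemma zsmul_rep (k : ℤ) (x : UnitAddCircle) : k • x = (((k : ℝ) * rep x : ℝ) : UnitAddCircle) := by
  conv_lhs => rw [← coe_rep x]
  rw [← AddCircle.coe_zsmul]
  congr 1
  simp

lemma nsmul_rep (k : ℕ) (x : UnitAddCircle) : k • x = (((k : ℝ) * rep x : ℝ) : UnitAddCircle) := by
  have := zsmul_rep (k : ℤ) x
  rw [natCast_zsmul] at this
  rw [this]
  push_cast
  rfl

/-- the law of the representative -/
noncomputable def law (μ : Measure UnitAddCircle) : Measure ℝ := μ.map rep

instance (μ : Measure UnitAddCircle) [IsProbabilityMeasure μ] : IsProbabilityMeasure (law μ) :=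
  Measure.isProbabilityMeasure_map meas_rep.aemeasurable

lemma ae_irrational (μ : Measure UnitAddCircle) [NullSingletonClass μ] : ∀ᵐ y ∂(law μ), Irrational y := by
  unfold law
  rw [ae_map_iff meas_rep.aemeasurable]
  · rw [ae_iff]
    have : {x : UnitAddCircle | ¬ Irrational (rep x)} ⊆
        range (fun q : ℚ => (((q : ℝ)) : UnitAddCircle)) := by
      intro x hx
      rw [mem_ofPred_eq, irrational_iff_ne_rational] at hx
      push Not at hx
      obtain ⟨a, b, _, h⟩ := hx
      refine ⟨(a : ℚ) / b, ?_⟩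
      simp only
      rw [← coe_rep x, h]
      push_cast
      rfl
    exact measure_mono_null this ((countable_range _).measure_zero μ)
  · have h1 : {y : ℝ | Irrational y} = (range ((↑) : ℚ → ℝ))ᶜ := by
      ext y; rfl
    rw [h1]
    exact (countable_range _).measurableSet.compl

lemma law_cell (μ : Measure UnitAddCircle) (b k d : ℕ) (hb : 1 ≤ b) (hd : d < b) :
    (law μ).real (cell b k d) =
      μ.real ((fun x : UnitAddCircle => k • x) ⁻¹' arc ((d : ℝ) / b) (((d : ℝ) + 1) / b)) := by
  unfold law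
  rw [map_measureReal_apply meas_rep (meas_cell b k d)]
  congr 1
  ext x
  have hb0 : (0 : ℝ) < b := by exact_mod_cast hb
  have hd1 : (d : ℝ) + 1 ≤ b := by exact_mod_cast hd
  rw [mem_preimage, mem_preimage, nsmul_rep, coe_mem_arc _ _ _ (by positivity)
    (by rw [div_le_one hb0]; exact hd1)]
  rfl

lemma ee_fourier (n : ℤ) (x : UnitAddCircle) : ee (n * rep x) = fourier n x := by
  conv_rhs => rw [← coe_rep x]
  rw [fourier_coe_apply]
  unfold ee
  congr 1
  push_cast
  ring

lemma integral_law (μ : Measure UnitAddCircle) (n : ℤ) :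
    ∫ y, ee (n * y) ∂(law μ) = ∫ x, fourier n x ∂μ := by
  unfold law
  rw [integral_map meas_rep.aemeasurable]
  · exact integral_congr_ae (Eventually.of_forall fun x => ee_fourier n x)
  · exact (cont_ee.comp (continuous_const.mul continuous_id)).aestronglyMeasurable

/-- dilates of measures -/
noncomputable def dil (k : ℤ) (μ : Measure UnitAddCircle) : Measure UnitAddCircle :=
  μ.map (fun x => k • x)

lemma meas_zsmul (k : ℤ) : Measurable fun x : UnitAddCircle => k • x :=
  (continuous_zsmul k).measurable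

lemma meas_nsmul (k : ℕ) : Measurable fun x : UnitAddCircle => k • x :=
  (continuous_nsmul k).measurable

instance (k : ℤ) (μ : Measure UnitAddCircle) [IsProbabilityMeasure μ] :
    IsProbabilityMeasure (dil k μ) :=
  Measure.isProbabilityMeasure_map (meas_zsmul k).aemeasurable

lemma noAtoms_dil (k : ℤ) (hk : k ≠ 0) (μ : Measure UnitAddCircle) [NullSingletonClass μ] :
    NullSingletonClass (dil k μ) := by
  constructor
  intro t
  unfold dil
  rw [Measure.map_apply (meas_zsmul k) (measurableSet_singleton t)]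
  have hk0 : (k : ℝ) ≠ 0 := by exact_mod_cast hk
  have : (fun x : UnitAddCircle => k • x) ⁻¹' {t} ⊆
      range (fun j : ℤ => (((rep t + j) / k : ℝ) : UnitAddCircle)) := by
    intro x hx
    rw [mem_preimage, mem_singleton_iff, zsmul_rep] at hx
    have h1 := congrArg rep hx
    rw [rep_coe] at h1
    refine ⟨⌊(k : ℝ) * rep x⌋, ?_⟩
    simp only
    rw [← h1, Int.fract_add_floor, mul_div_cancel_left₀ _ hk0, coe_rep]
  exact measure_mono_null this ((countable_range _).measure_zero μ)

lemma dil_fourier (k : ℤ) (μ : Measure UnitAddCircle) (n : ℤ) :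
    ∫ x, fourier n x ∂(dil k μ) = ∫ x, fourier (k * n) x ∂μ := by
  unfold dil
  rw [integral_map (meas_zsmul k).aemeasurable (map_continuous (fourier n)).aestronglyMeasurable]
  refine integral_congr_ae (Eventually.of_forall fun x => ?_)
  simp only
  rw [← ee_fourier, ← ee_fourier, zsmul_rep, rep_coe]
  have e : (n : ℝ) * Int.fract ((k : ℝ) * rep x) = ((k * n : ℤ) : ℝ) * rep x +
      ((-(n * ⌊(k : ℝ) * rep x⌋) : ℤ) : ℝ) := by
    unfold Int.fract
    push_cast
    ring
  rw [e]
  unfold ee
  rw [Complex.exp_eq_exp_iff_exists_int]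
  refine ⟨-(n * ⌊(k : ℝ) * rep x⌋), ?_⟩
  push_cast
  ring

lemma dil_dil (k l : ℤ) (μ : Measure UnitAddCircle) : dil k (dil l μ) = dil (k * l) μ := by
  unfold dil
  rw [Measure.map_map (meas_zsmul k) (meas_zsmul l)]
  congr 1
  funext x
  simp only [Function.comp]
  rw [mul_smul]

/-- uniqueness of measures on the circle from Fourier coefficients (as in `Helper882/Circles`) -/
lemma fourier_ext (ρ ρ' : Measure UnitAddCircle) [IsFiniteMeasure ρ] [IsFiniteMeasure ρ']
    (h : ∀ n : ℤ, ∫ x, fourier n x ∂ρ = ∫ x, fourier n x ∂ρ') : ρ = ρ' := by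
  have hint : ∀ (g : C(UnitAddCircle, ℂ)) (m : Measure UnitAddCircle) [IsFiniteMeasure m],
      Integrable (fun x => g x) m := by
    intro g m _
    exact (BoundedContinuousFunction.mkOfCompact g).integrable m
  have hlin : ∀ (m : Measure UnitAddCircle) [IsFiniteMeasure m],
      Continuous (fun g : C(UnitAddCircle, ℂ) => ∫ x, g x ∂m) := by
    intro m _
    have : ∀ g g' : C(UnitAddCircle, ℂ),
        dist (∫ x, g x ∂m) (∫ x, g' x ∂m) ≤ (m.real univ) * dist g g' := by
      intro g g'
      rw [dist_eq_norm, ← integral_sub (hint g m) (hint g' m)]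
      refine le_trans (norm_integral_le_of_norm_le_const (C := dist g g') ?_) ?_
      · apply Eventually.of_forall
        intro x
        rw [← dist_eq_norm]
        exact ContinuousMap.dist_apply_le_dist x
      · rw [mul_comm]
    apply (LipschitzWith.of_dist_le_mul (K := (m.real univ).toNNReal) ?_).continuous
    intro g g'
    rw [Real.coe_toNNReal _ measureReal_nonneg]
    exact this g g'
  have hall : ∀ g : C(UnitAddCircle, ℂ), ∫ x, g x ∂ρ = ∫ x, g x ∂ρ' := by
    intro g
    have hclosed : IsClosed {g : C(UnitAddCircle, ℂ) | ∫ x, g x ∂ρ = ∫ x, g x ∂ρ'} :=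
      isClosed_eq (hlin ρ) (hlin ρ')
    have hspan : (Submodule.span ℂ (Set.range (fourier (T := 1))) : Set C(UnitAddCircle, ℂ)) ⊆
        {g : C(UnitAddCircle, ℂ) | ∫ x, g x ∂ρ = ∫ x, g x ∂ρ'} := by
      intro g hg
      induction hg using Submodule.span_induction with
      | mem x hx => obtain ⟨n, rfl⟩ := hx; exact h n
      | zero => simp
      | add x y _ _ hx hy =>
        show ∫ t, x t + y t ∂ρ = ∫ t, x t + y t ∂ρ'
        rw [integral_add (hint x ρ) (hint y ρ), integral_add (hint x ρ') (hint y ρ')]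
        rw [show ∫ t, x t ∂ρ = ∫ t, x t ∂ρ' from hx, show ∫ t, y t ∂ρ = ∫ t, y t ∂ρ' from hy]
      | smul c x _ hx =>
        show ∫ t, c * x t ∂ρ = ∫ t, c * x t ∂ρ'
        rw [integral_const_mul, integral_const_mul]
        rw [show ∫ t, x t ∂ρ = ∫ t, x t ∂ρ' from hx]
    have hg : g ∈ (Submodule.span ℂ (Set.range (fourier (T := 1)))).topologicalClosure := by
      rw [span_fourier_closure_eq_top]; trivial
    exact closure_minimal hspan hclosed hg
  apply ext_of_forall_integral_eq_of_IsFiniteMeasure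
  intro f
  let g : C(UnitAddCircle, ℂ) := ⟨fun x => (f x : ℂ), Complex.continuous_ofReal.comp f.continuous⟩
  have h1 := hall g
  have h2 : ∀ m : Measure UnitAddCircle, ∫ x, g x ∂m = ((∫ x, f x ∂m : ℝ) : ℂ) := by
    intro m
    exact integral_ofReal
  rw [h2, h2] at h1
  exact_mod_cast h1

lemma fourier_conj (μ : Measure UnitAddCircle) (n : ℤ) : ∫ x, (fourier (-n) x : ℂ) ∂μ =
    (starRingEnd ℂ) (∫ x, (fourier n x : ℂ) ∂μ) := by
  rw [← integral_conj]
  congr 1
  ext x
  exact fourier_neg

lemma fourier_ext_pos (μ ν : Measure UnitAddCircle) [IsProbabilityMeasure μ]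
    [IsProbabilityMeasure ν]
    (h : ∀ n : ℕ, 1 ≤ n → ∫ x, fourier (n : ℤ) x ∂μ = ∫ x, fourier (n : ℤ) x ∂ν) : μ = ν := by
  apply fourier_ext
  intro n
  rcases lt_trichotomy n 0 with hn | hn | hn
  · obtain ⟨k, hk⟩ : ∃ k : ℕ, n = -(k : ℤ) := ⟨n.natAbs, by omega⟩
    rw [hk, fourier_conj, fourier_conj, h k (by omega)]
  · subst hn
    simp
  · obtain ⟨k, hk⟩ : ∃ k : ℕ, n = (k : ℤ) := ⟨n.natAbs, by omega⟩
    rw [hk, h k (by omega)]

lemma preimage_dil (k n : ℕ) (μ : Measure UnitAddCircle) (A : Set UnitAddCircle)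
    (hA : MeasurableSet A) : (dil n μ).real ((fun x : UnitAddCircle => k • x) ⁻¹' A) =
      μ.real ((fun x : UnitAddCircle => (k * n) • x) ⁻¹' A) := by
  unfold dil
  rw [map_measureReal_apply (meas_zsmul _) (meas_nsmul k hA), ← preimage_comp]
  congr 2
  funext x
  simp only [Function.comp]
  rw [natCast_zsmul, mul_smul]

/-- **Determination by the dilates of arcs.** -/
theorem determined (b : ℕ) (hb : 3 ≤ b) (μ ν : Measure UnitAddCircle) [IsProbabilityMeasure μ]
    [IsProbabilityMeasure ν] [NullSingletonClass μ] [NullSingletonClass ν]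
    (h : ∀ k : ℕ, 1 ≤ k → ∀ d : ℕ, d < b →
      μ.real ((fun x : UnitAddCircle => k • x) ⁻¹' arc ((d : ℝ) / b) (((d : ℝ) + 1) / b)) =
      ν.real ((fun x : UnitAddCircle => k • x) ⁻¹' arc ((d : ℝ) / b) (((d : ℝ) + 1) / b))) :
    μ = ν := by
  have hb0 : (0 : ℝ) < b := by exact_mod_cast (by omega : 0 < b)
  apply fourier_ext_pos
  intro n hn
  have hn0 : (n : ℤ) ≠ 0 := by exact_mod_cast (by omega : n ≠ 0)
  have := noAtoms_dil n hn0 μ
  have := noAtoms_dil n hn0 ν
  have h1 := meas_eq hb (law (dil n μ)) (law (dil n ν)) (ae_irrational _) (ae_irrational _)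
    (fun k hk d hd => by
      have hd1 : (d : ℝ) + 1 ≤ b := by exact_mod_cast hd
      have hA := meas_arc ((d : ℝ) / b) (((d : ℝ) + 1) / b) (by positivity)
        (by rw [div_le_one hb0]; exact hd1)
      rw [law_cell _ b k d (by omega) hd, law_cell _ b k d (by omega) hd,
        preimage_dil k n μ _ hA, preimage_dil k n ν _ hA]
      exact h (k * n) (Nat.mul_pos hk hn) d hd)
  have h2 := integral_law (dil n μ) 1
  have h3 := integral_law (dil n ν) 1
  rw [dil_fourier] at h2 h3
  simp only [Int.cast_one, one_mul, mul_one] at h2 h3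
  rw [← h2, ← h3, h1]

end Pool.Agent.U798.FA
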