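import Pool.Agent.U798.FA.C

/-! Invariant measures and the masses of arcs. -/

set_option autoImplicit false

open MeasureTheory Set Topology Filter
open Pool.Agent.H807R2.Dav
open scoped Real

namespace Pool.Agent.U798.FA

/-- atomless probability measures invariant under `x ↦ p x` and `x ↦ q x` -/
def Joint (p q : ℕ) (μ : Measure UnitAddCircle) : Prop :=
  IsProbabilityMeasure μ ∧ NullSingletonClass μ ∧
    MeasurePreserving (fun x : UnitAddCircle => p • x) μ μ ∧
    MeasurePreserving (fun x : UnitAddCircle => q • x) μ μ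

lemma inv_dil (p : ℕ) (k : ℤ) (μ : Measure UnitAddCircle)
    (h : MeasurePreserving (fun x : UnitAddCircle => p • x) μ μ) :
    MeasurePreserving (fun x : UnitAddCircle => p • x) (dil k μ) (dil k μ) := by
  refine ⟨meas_nsmul p, ?_⟩
  unfold dil
  rw [Measure.map_map (meas_nsmul p) (meas_zsmul k)]
  have e : (fun x : UnitAddCircle => p • x) ∘ (fun x : UnitAddCircle => k • x) =
      (fun x : UnitAddCircle => k • x) ∘ (fun x : UnitAddCircle => p • x) := by
    funext x
    simp only [Function.comp]
    rw [smul_comm]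
  rw [e, ← Measure.map_map (meas_zsmul k) (meas_nsmul p), h.map_eq]

lemma joint_dil {p q : ℕ} (k : ℤ) (hk : k ≠ 0) {μ : Measure UnitAddCircle} (h : Joint p q μ) :
    Joint p q (dil k μ) := by
  obtain ⟨h1, h2, h3, h4⟩ := h
  exact ⟨inferInstance, noAtoms_dil k hk μ, inv_dil p k μ h3, inv_dil q k μ h4⟩

/-- the law of the difference of two independent variables -/
noncomputable def sy (μ : Measure UnitAddCircle) : Measure UnitAddCircle :=
  (μ.prod μ).map (fun z => z.1 - z.2)

lemma meas_subt : Measurable fun z : UnitAddCircle × UnitAddCircle => z.1 - z.2 :=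
  continuous_sub.measurable

instance (μ : Measure UnitAddCircle) [IsProbabilityMeasure μ] : IsProbabilityMeasure (sy μ) :=
  Measure.isProbabilityMeasure_map meas_subt.aemeasurable

lemma noAtoms_sy (μ : Measure UnitAddCircle) [IsProbabilityMeasure μ] [NullSingletonClass μ] :
    NullSingletonClass (sy μ) := by
  constructor
  intro t
  unfold sy
  rw [Measure.map_apply meas_subt (measurableSet_singleton t)]
  rw [Measure.prod_apply (meas_subt (measurableSet_singleton t))]
  have : ∀ x : UnitAddCircle, μ (Prod.mk x ⁻¹' ((fun z : UnitAddCircle × UnitAddCircle =>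
      z.1 - z.2) ⁻¹' {t})) = 0 := by
    intro x
    have e : Prod.mk x ⁻¹' ((fun z : UnitAddCircle × UnitAddCircle => z.1 - z.2) ⁻¹' {t}) =
        {x - t} := by
      ext y
      simp only [mem_preimage, mem_singleton_iff]
      constructor
      · intro h
        rw [← h]; abel
      · intro h
        rw [h]; abel
    rw [e, measure_singleton]
  simp_rw [this]
  simp

lemma inv_sy (p : ℕ) (μ : Measure UnitAddCircle) [IsProbabilityMeasure μ]
    (h : MeasurePreserving (fun x : UnitAddCircle => p • x) μ μ) :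
    MeasurePreserving (fun x : UnitAddCircle => p • x) (sy μ) (sy μ) := by
  refine ⟨meas_nsmul p, ?_⟩
  unfold sy
  rw [Measure.map_map (meas_nsmul p) meas_subt]
  have e : (fun x : UnitAddCircle => p • x) ∘ (fun z : UnitAddCircle × UnitAddCircle => z.1 - z.2) =
      (fun z : UnitAddCircle × UnitAddCircle => z.1 - z.2) ∘
        (Prod.map (fun x : UnitAddCircle => p • x) (fun x : UnitAddCircle => p • x)) := by
    funext z
    simp only [Function.comp, Prod.map_fst, Prod.map_snd]
    rw [smul_sub]
  rw [e, ← Measure.map_map meas_subt ((meas_nsmul p).prodMap (meas_nsmul p)), (h.prod h).map_eq]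

lemma joint_sy {p q : ℕ} {μ : Measure UnitAddCircle} (h : Joint p q μ) : Joint p q (sy μ) := by
  obtain ⟨h1, h2, h3, h4⟩ := h
  exact ⟨inferInstance, noAtoms_sy μ, inv_sy p μ h3, inv_sy q μ h4⟩

/-- symmetric measures -/
def Sym (μ : Measure UnitAddCircle) : Prop := μ.map (fun x => -x) = μ

lemma sym_sy (μ : Measure UnitAddCircle) [IsProbabilityMeasure μ] : Sym (sy μ) := by
  unfold Sym sy
  rw [Measure.map_map measurable_neg meas_subt]
  have e : (fun x : UnitAddCircle => -x) ∘ (fun z : UnitAddCircle × UnitAddCircle => z.1 - z.2) =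
      (fun z : UnitAddCircle × UnitAddCircle => z.1 - z.2) ∘ Prod.swap := by
    funext z
    simp only [Function.comp, Prod.fst_swap, Prod.snd_swap]
    abel
  rw [e, ← Measure.map_map meas_subt measurable_swap, Measure.prod_swap]

lemma sym_dil (k : ℤ) (μ : Measure UnitAddCircle) (h : Sym μ) : Sym (dil k μ) := by
  unfold Sym dil at *
  rw [Measure.map_map measurable_neg (meas_zsmul k)]
  have e : (fun x : UnitAddCircle => -x) ∘ (fun x : UnitAddCircle => k • x) =
      (fun x : UnitAddCircle => k • x) ∘ (fun x : UnitAddCircle => -x) := by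
    funext x
    simp only [Function.comp]
    rw [smul_neg]
  rw [e, ← Measure.map_map (meas_zsmul k) measurable_neg, h]

lemma fourier_sy (μ : Measure UnitAddCircle) [IsProbabilityMeasure μ] (n : ℤ) :
    ∫ x, fourier n x ∂(sy μ) =
      (∫ x, fourier n x ∂μ) * (starRingEnd ℂ) (∫ x, fourier n x ∂μ) := by
  unfold sy
  rw [integral_map meas_subt.aemeasurable (map_continuous (fourier n)).aestronglyMeasurable,
    ← fourier_conj]
  have e : ∀ z : UnitAddCircle × UnitAddCircle, (fourier n (z.1 - z.2) : ℂ) =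
      fourier n z.1 * fourier (-n) z.2 := by
    intro z
    rw [sub_eq_add_neg]
    simp only [fourier_apply, smul_add, smul_neg, neg_smul, AddCircle.toCircle_add, Circle.coe_mul]
  simp_rw [e]
  exact integral_prod_mul (fun x => (fourier n x : ℂ)) (fun x => (fourier (-n) x : ℂ))

/-- if the symmetrization of `μ` is Lebesgue measure, so is `μ` -/
lemma of_sy (μ : Measure UnitAddCircle) [IsProbabilityMeasure μ]
    (h : sy μ = (volume : Measure UnitAddCircle)) : μ = (volume : Measure UnitAddCircle) := by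
  have hv : IsProbabilityMeasure (volume : Measure UnitAddCircle) := by
    rw [← h]; infer_instance
  apply fourier_ext_pos
  intro n hn
  have h0 : ∫ x : UnitAddCircle, fourier (n : ℤ) x = 0 := by
    have hn0 : (n : ℤ) ≠ 0 := by exact_mod_cast (by omega : n ≠ 0)
    have h1 := integral_add_right_eq_self (μ := (volume : Measure UnitAddCircle))
      (fun x : UnitAddCircle => (fourier (n : ℤ) x : ℂ)) (((1 / 2 / (n : ℤ) : ℝ)) : UnitAddCircle)
    have h2 : ∀ x : UnitAddCircle,
        (fourier (n : ℤ) (x + (((1 / 2 / (n : ℤ) : ℝ)) : UnitAddCircle)) : ℂ) =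
          - fourier (n : ℤ) x := by
      intro x
      exact fourier_add_half_inv_index hn0 one_pos x
    simp_rw [h2] at h1
    rw [integral_neg] at h1
    have h3 : (2 : ℂ) * ∫ x : UnitAddCircle, fourier (n : ℤ) x = 0 := by
      linear_combination (-1 : ℂ) * h1
    rcases mul_eq_zero.mp h3 with h | h
    · norm_num at h
    · exact h
  have h1 := fourier_sy μ n
  rw [h, h0, Complex.mul_conj] at h1
  rw [h0]
  have h2 : Complex.normSq (∫ x, fourier (n : ℤ) x ∂μ) = 0 := by exact_mod_cast h1.symm
  exact Complex.normSq_eq_zero.1 h2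

/-! Masses of arcs. -/

lemma mass_add (μ : Measure UnitAddCircle) [IsProbabilityMeasure μ] (α β γ : ℝ) (h0 : 0 ≤ α)
    (h1 : α ≤ β) (h2 : β ≤ γ) (h3 : γ ≤ 1) :
    μ.real (arc α γ) = μ.real (arc α β) + μ.real (arc β γ) := by
  have e : arc α γ = arc α β ∪ arc β γ := by
    unfold arc
    rw [← image_union, Ico_union_Ico_eq_Ico h1 h2]
  rw [e, measureReal_union]
  · rw [disjoint_left]
    intro x hx hx'
    rw [mem_arc α β x h0 (h2.trans h3)] at hx
    rw [mem_arc β γ x (h0.trans h1) h3] at hx'
    linarith [hx.2, hx'.1]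
  · exact meas_arc β γ (h0.trans h1) h3

lemma mass_total (μ : Measure UnitAddCircle) [IsProbabilityMeasure μ] : μ.real (arc 0 1) = 1 := by
  have : arc 0 1 = univ := by
    ext x
    rw [mem_arc 0 1 x le_rfl le_rfl]
    simp only [mem_univ, iff_true]
    exact ⟨rep_nonneg x, rep_lt x⟩
  rw [this]
  simp

/-- reflection of arcs -/
lemma mass_neg (μ : Measure UnitAddCircle) [NullSingletonClass μ]
    (α β : ℝ) (h0 : 0 ≤ α) (h2 : β ≤ 1) :
    μ.real ((fun x : UnitAddCircle => -x) ⁻¹' arc α β) = μ.real (arc (1 - β) (1 - α)) := by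
  apply measureReal_congr
  have hz : μ ({((0 : ℝ) : UnitAddCircle), ((1 - α : ℝ) : UnitAddCircle),
      ((1 - β : ℝ) : UnitAddCircle)} : Set UnitAddCircle) = 0 :=
    (Set.toFinite _).measure_zero μ
  have hae : ∀ᵐ x ∂μ, x ∉ ({((0 : ℝ) : UnitAddCircle), ((1 - α : ℝ) : UnitAddCircle),
      ((1 - β : ℝ) : UnitAddCircle)} : Set UnitAddCircle) := by
    exact measure_eq_zero_iff_ae_notMem.1 hz
  filter_upwards [hae] with x hx
  simp only [mem_insert_iff, mem_singleton_iff, not_or] at hx
  obtain ⟨hx0, hxα, hxβ⟩ := hx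
  have hr0 : rep x ≠ 0 := fun h => hx0 (by rw [← coe_rep x, h])
  have hrα : rep x ≠ 1 - α := fun h => hxα (by rw [← coe_rep x, h])
  have hrβ : rep x ≠ 1 - β := fun h => hxβ (by rw [← coe_rep x, h])
  have hneg : rep (-x) = 1 - rep x := by
    have h3 := rep_nonneg x
    have h4 := rep_lt x
    have h5 : -x = ((1 - rep x : ℝ) : UnitAddCircle) := by
      conv_lhs => rw [← coe_rep x]
      rw [← AddCircle.coe_neg, sub_eq_neg_add, AddCircle.coe_add]
      have : ((1 : ℝ) : UnitAddCircle) = 0 := AddCircle.coe_period 1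
      rw [this, add_zero]
    rw [h5, rep_coe, Int.fract_eq_self]
    exact ⟨by linarith, by have := lt_of_le_of_ne h3 (Ne.symm hr0); linarith⟩
  apply propext
  show -x ∈ arc α β ↔ x ∈ arc (1 - β) (1 - α)
  rw [mem_arc α β _ h0 h2, mem_arc _ _ _ (by linarith) (by linarith), hneg]
  constructor
  · rintro ⟨h3, h4⟩
    exact ⟨by linarith, lt_of_le_of_ne (by linarith) hrα⟩
  · rintro ⟨h3, h4⟩
    exact ⟨by linarith, by have := lt_of_le_of_ne h3 (Ne.symm hrβ); linarith⟩

lemma mass_sym (μ : Measure UnitAddCircle) [NullSingletonClass μ]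
    (h : Sym μ) (α β : ℝ) (h0 : 0 ≤ α) (h2 : β ≤ 1) :
    μ.real (arc α β) = μ.real (arc (1 - β) (1 - α)) := by
  rw [← mass_neg μ α β h0 h2]
  conv_lhs => rw [← h]
  exact map_measureReal_apply measurable_neg (meas_arc α β h0 h2)

/-- the preimage of an arc under doubling -/
lemma mass_two (μ : Measure UnitAddCircle) [IsProbabilityMeasure μ]
    (h : MeasurePreserving (fun x : UnitAddCircle => 2 • x) μ μ) (α β : ℝ) (h0 : 0 ≤ α)
    (h2 : β ≤ 1) :
    μ.real (arc α β) = μ.real (arc (α / 2) (β / 2)) + μ.real (arc ((1 + α) / 2) ((1 + β) / 2)) := by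
  have e1 : μ.real (arc α β) = μ.real ((fun x : UnitAddCircle => 2 • x) ⁻¹' arc α β) := by
    conv_lhs => rw [← h.map_eq]
    exact map_measureReal_apply (meas_nsmul 2) (meas_arc α β h0 h2)
  have e2 : (fun x : UnitAddCircle => 2 • x) ⁻¹' arc α β =
      arc (α / 2) (β / 2) ∪ arc ((1 + α) / 2) ((1 + β) / 2) := by
    ext x
    have h3 := rep_nonneg x
    have h4 := rep_lt x
    rw [mem_preimage, nsmul_rep, coe_mem_arc α β _ h0 h2, mem_union,
      mem_arc _ _ _ (by linarith) (by linarith), mem_arc _ _ _ (by linarith) (by linarith)]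
    push_cast
    rcases lt_or_ge (rep x) (1 / 2) with h5 | h5
    · rw [Int.fract_eq_self.2 ⟨by linarith, by linarith⟩]
      constructor
      · rintro ⟨h6, h7⟩
        exact Or.inl ⟨by linarith, by linarith⟩
      · rintro (⟨h6, h7⟩ | ⟨h6, h7⟩)
        · exact ⟨by linarith, by linarith⟩
        · exact absurd h6 (by linarith)
    · have e3 : Int.fract (2 * rep x) = 2 * rep x - 1 := by
        rw [Int.fract_eq_iff]
        exact ⟨by linarith, by linarith, 1, by push_cast; ring⟩
      rw [e3]
      constructor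
      · rintro ⟨h6, h7⟩
        exact Or.inr ⟨by linarith, by linarith⟩
      · rintro (⟨h6, h7⟩ | ⟨h6, h7⟩)
        · exact absurd h7 (by linarith)
        · exact ⟨by linarith, by linarith⟩
  rw [e1, e2, measureReal_union]
  · rw [disjoint_left]
    intro x hx hx'
    rw [mem_arc _ _ _ (by linarith) (by linarith)] at hx hx'
    linarith [hx.2, hx'.1]
  · exact meas_arc _ _ (by linarith) (by linarith)

end Pool.Agent.U798.FA
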