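import Pool.Agent.U798.FA.D

/-! The conjecture of Furstenberg and one arc. -/

set_option autoImplicit false

open MeasureTheory Set Topology Filter
open Pool.Agent.H807R2.Dav
open Pool.Agent.U798.MN
open scoped Real

namespace Pool.Agent.U798.FA

lemma int_fourier_vol (n : ℤ) (hn0 : n ≠ 0) : ∫ x : UnitAddCircle, fourier n x = 0 := by
  have h1 := integral_add_right_eq_self (μ := (volume : Measure UnitAddCircle))
    (fun x : UnitAddCircle => (fourier n x : ℂ)) (((1 / 2 / n : ℝ)) : UnitAddCircle)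
  have h2 : ∀ x : UnitAddCircle,
      (fourier n (x + (((1 / 2 / n : ℝ)) : UnitAddCircle)) : ℂ) = - fourier n x := by
    intro x
    exact fourier_add_half_inv_index hn0 one_pos x
  simp_rw [h2] at h1
  rw [integral_neg] at h1
  have h3 : (2 : ℂ) * ∫ x : UnitAddCircle, fourier n x = 0 := by
    linear_combination (-1 : ℂ) * h1
  rcases mul_eq_zero.mp h3 with h | h
  · norm_num at h
  · exact h

instance : IsProbabilityMeasure (volume : Measure UnitAddCircle) :=
  ⟨UnitAddCircle.measure_univ⟩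

instance : NullSingletonClass (volume : Measure UnitAddCircle) := ⟨fun x => by
  have h := AddCircle.volume_closedBall (T := 1) (x := x) 0
  rw [mul_zero, min_eq_right zero_le_one, ENNReal.ofReal_zero] at h
  rwa [Metric.closedBall_zero] at h⟩

lemma dil_vol (k : ℤ) (hk : k ≠ 0) : dil k (volume : Measure UnitAddCircle) = volume := by
  apply fourier_ext
  intro n
  rw [dil_fourier]
  rcases eq_or_ne n 0 with h | h
  · subst h
    simp
  · rw [int_fourier_vol _ (mul_ne_zero hk h), int_fourier_vol _ h]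

lemma vol_arc (α β : ℝ) (h0 : 0 ≤ α) (h1 : α ≤ β) (h2 : β ≤ 1) :
    (volume : Measure UnitAddCircle).real (arc α β) = β - α := by
  have h := (AddCircle.measurePreserving_mk (1 : ℝ) 0).measure_preimage
    (meas_arc α β h0 h2).nullMeasurableSet
  rw [measureReal_def, ← h]
  have hm : MeasurableSet ((fun t : ℝ => (t : UnitAddCircle)) ⁻¹' arc α β) :=
    AddCircle.measurable_mk' (meas_arc α β h0 h2)
  rw [Measure.restrict_apply hm]
  have hae : ((fun t : ℝ => (t : UnitAddCircle)) ⁻¹' arc α β ∩ Ioc (0 : ℝ) (0 + 1) : Set ℝ) =ᵐ[volume]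
      Ico α β := by
    have hz : (volume : Measure ℝ) ({0, 1} : Set ℝ) = 0 := (Set.toFinite _).measure_zero _
    have hae' : ∀ᵐ t ∂(volume : Measure ℝ), t ∉ ({0, 1} : Set ℝ) :=
      measure_eq_zero_iff_ae_notMem.1 hz
    filter_upwards [hae'] with t ht
    simp only [mem_insert_iff, mem_singleton_iff, not_or] at ht
    apply propext
    show ((t : UnitAddCircle) ∈ arc α β ∧ t ∈ Ioc (0 : ℝ) (0 + 1)) ↔ t ∈ Ico α β
    rw [coe_mem_arc α β t h0 h2]
    constructor
    · rintro ⟨⟨h3, h4⟩, h5, h6⟩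
      rw [zero_add] at h6
      have h7 : t < 1 := lt_of_le_of_ne h6 ht.2
      rw [Int.fract_eq_self.2 ⟨h5.le, h7⟩] at h3 h4
      exact ⟨h3, h4⟩
    · rintro ⟨h3, h4⟩
      have h5 : 0 ≤ t := h0.trans h3
      have h6 : t < 1 := h4.trans_le h2
      rw [Int.fract_eq_self.2 ⟨h5, h6⟩]
      exact ⟨⟨h3, h4⟩, lt_of_le_of_ne h5 (Ne.symm ht.1), by linarith⟩
  rw [measure_congr hae, Real.volume_Ico, ENNReal.toReal_ofReal (by linarith)]

lemma real_dil (k : ℕ) (μ : Measure UnitAddCircle) (A : Set UnitAddCircle)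
    (hA : MeasurableSet A) : (dil k μ).real A = μ.real ((fun x : UnitAddCircle => k • x) ⁻¹' A) := by
  unfold dil
  rw [map_measureReal_apply (meas_zsmul _) hA]
  simp only [natCast_zsmul]

/-- Lebesgue measure is characterised by the dilates of the arcs `[d / b, (d + 1) / b)` -/
theorem eq_vol (b : ℕ) (hb : 3 ≤ b) (μ : Measure UnitAddCircle) [IsProbabilityMeasure μ]
    [NullSingletonClass μ]
    (h : ∀ k : ℕ, 1 ≤ k → ∀ d : ℕ, d < b →
      (dil k μ).real (arc ((d : ℝ) / b) (((d : ℝ) + 1) / b)) = 1 / b) :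
    μ = (volume : Measure UnitAddCircle) := by
  have hb0 : (0 : ℝ) < b := by exact_mod_cast (by omega : 0 < b)
  refine determined b hb μ volume fun k hk d hd => ?_
  have hd1 : (d : ℝ) + 1 ≤ b := by exact_mod_cast hd
  have hA := meas_arc ((d : ℝ) / b) (((d : ℝ) + 1) / b) (by positivity)
    (by rw [div_le_one hb0]; exact hd1)
  rw [← real_dil k μ _ hA, ← real_dil k volume _ hA, h k hk d hd,
    dil_vol k (by exact_mod_cast (by omega : k ≠ 0)), vol_arc _ _ (by positivity)
      (div_le_div_of_nonneg_right (by linarith) hb0.le) (by rw [div_le_one hb0]; exact hd1)]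
  ring

lemma mass_sum (μ : Measure UnitAddCircle) [IsProbabilityMeasure μ] (N a c : ℕ) (hN : 1 ≤ N)
    (hac : a ≤ c) (hc : c ≤ N) : μ.real (arc ((a : ℝ) / N) ((c : ℝ) / N)) =
      ∑ d ∈ Finset.Ico a c, μ.real (arc ((d : ℝ) / N) (((d : ℝ) + 1) / N)) := by
  have hN0 : (0 : ℝ) < N := by exact_mod_cast hN
  induction c, hac using Nat.le_induction with
  | base =>
    rw [Finset.Ico_self, Finset.sum_empty]
    have : arc ((a : ℝ) / N) ((a : ℝ) / N) = ∅ := by
      unfold arc
      rw [Ico_self, image_empty]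
    rw [this]
    simp
  | succ c hac ih =>
    have hc1 : (c : ℝ) + 1 ≤ N := by exact_mod_cast hc
    have hac' : (a : ℝ) ≤ c := by exact_mod_cast hac
    rw [Finset.sum_Ico_succ_top hac, ← ih (by omega)]
    push_cast
    exact mass_add μ _ _ _ (by positivity) (div_le_div_of_nonneg_right hac' hN0.le)
      (div_le_div_of_nonneg_right (by linarith) hN0.le) (by rw [div_le_one hN0]; exact hc1)

lemma solve3 (m : ℕ → ℝ) (a c : ℕ) (hac : a < c) (hc : c ≤ 3) (hne : ¬ (3 ∣ 2 * a ∧ 3 ∣ 2 * c))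
    (h1 : m 0 = m 2) (ht : m 0 + m 1 + m 2 = 1)
    (h : ∑ d ∈ Finset.Ico a c, m d = ((c : ℝ) - a) / 3) : ∀ d < 3, m d = 1 / 3 := by
  intro d hd
  interval_cases c <;> interval_cases a <;>
    simp [Finset.sum_Ico_eq_sum_range, Finset.sum_range_succ] at h hne <;>
    interval_cases d <;> linarith

lemma solve4 (m : ℕ → ℝ) (a c : ℕ) (hac : a < c) (hc : c ≤ 4) (hne : ¬ (4 ∣ 2 * a ∧ 4 ∣ 2 * c))
    (h1 : m 0 = m 3) (h2 : m 1 = m 2) (ht : m 0 + m 1 + m 2 + m 3 = 1)
    (h : ∑ d ∈ Finset.Ico a c, m d = ((c : ℝ) - a) / 4) : ∀ d < 4, m d = 1 / 4 := by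
  intro d hd
  interval_cases c <;> interval_cases a <;>
    simp [Finset.sum_Ico_eq_sum_range, Finset.sum_range_succ] at h hne <;>
    first | (exfalso; omega) | (interval_cases d <;> linarith)

lemma solve6 (m : ℕ → ℝ) (a c : ℕ) (hac : a < c) (hc : c ≤ 6) (hne : ¬ (6 ∣ 2 * a ∧ 6 ∣ 2 * c))
    (h1 : m 0 = m 5) (h2 : m 1 = m 4) (h3 : m 2 = m 3) (h4 : m 1 = m 3)
    (ht : m 0 + m 1 + m 2 + m 3 + m 4 + m 5 = 1)
    (h : ∑ d ∈ Finset.Ico a c, m d = ((c : ℝ) - a) / 6) : ∀ d < 6, m d = 1 / 6 := by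
  intro d hd
  interval_cases c <;> interval_cases a <;>
    simp [Finset.sum_Ico_eq_sum_range, Finset.sum_range_succ] at h hne <;>
    first | (exfalso; omega) | (interval_cases d <;> linarith)

end Pool.Agent.U798.FA
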