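import Pool.Agent.U798.FA.F

/-! The quantitative form for Fourier coefficients. -/

set_option autoImplicit false

open MeasureTheory Set Topology Filter
open Pool.Agent.H807R2.Dav
open Pool.Agent.U798.MN
open scoped Real

namespace Pool.Agent.U798.FA

/-- choice of the parameter `K` -/
lemma params (η C0 : ℝ) (U K0 : ℕ) (hη : 0 < η) (hC0 : 1 ≤ C0) (hU : 1 ≤ η * ((U + 1 : ℕ) : ℝ)) :
    ∃ C : ℝ, 1 ≤ C ∧ ∀ ε : ℝ, 0 < ε → ε ≤ 1 → ∃ K : ℕ, K0 ≤ K ∧
      (K : ℝ) ≤ Real.exp (C * ε ^ (-η)) ∧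
      1 / Real.log K ^ (U + 1) ≤ ε / (2 * C0) ∧
      ε ^ (1 + η) / C * (1 + Real.log K) ≤ ε / (2 * C0) := by
  obtain ⟨A, hA⟩ : ∃ A : ℝ, A = 2 * C0 + K0 := ⟨_, rfl⟩
  have hK0r : (0 : ℝ) ≤ K0 := Nat.cast_nonneg _
  have hA1 : 1 ≤ A := by linarith
  obtain ⟨C, hC⟩ : ∃ C : ℝ, C = 6 * A * C0 + A + 1 := ⟨_, rfl⟩
  have hAC : 0 < A * C0 := by positivity
  have hC1 : 1 ≤ C := by linarith
  have hCp : 0 < C := by linarith
  refine ⟨C, hC1, fun ε hε hε1 => ?_⟩
  obtain ⟨P, hP⟩ : ∃ P : ℝ, P = ε ^ (-η) := ⟨_, rfl⟩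
  have hP1 : 1 ≤ P := hP ▸ Real.one_le_rpow_of_pos_of_le_one_of_nonpos hε hε1 (by linarith)
  have hPU : 1 / ε ≤ P ^ (U + 1) := by
    have h1 : P ^ (U + 1) = ε ^ (-(η * ((U + 1 : ℕ) : ℝ))) := by
      rw [hP, ← Real.rpow_natCast, ← Real.rpow_mul hε.le]
      congr 1
      ring
    rw [h1]
    have h2 : 1 / ε = ε ^ (-(1 : ℝ)) := by
      rw [Real.rpow_neg hε.le, Real.rpow_one, one_div]
    rw [h2]
    exact Real.rpow_le_rpow_of_exponent_ge hε hε1 (by linarith)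
  obtain ⟨K, hK⟩ : ∃ K : ℕ, K = ⌈Real.exp (A * P)⌉₊ := ⟨_, rfl⟩
  have hK1 : Real.exp (A * P) ≤ K := by rw [hK]; exact Nat.le_ceil _
  have hAP : A ≤ A * P := le_mul_of_one_le_right (by linarith) hP1
  have hexp1 : A * P + 1 ≤ Real.exp (A * P) := Real.add_one_le_exp _
  have hK2 : (K : ℝ) ≤ 2 * Real.exp (A * P) := by
    have h1 : (K : ℝ) < Real.exp (A * P) + 1 := by
      rw [hK]; exact Nat.ceil_lt_add_one (Real.exp_pos _).le
    linarith
  have hKpos : 0 < (K : ℝ) := lt_of_lt_of_le (Real.exp_pos _) hK1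
  have hlogK1 : A * P ≤ Real.log K := by
    rw [Real.le_log_iff_exp_le hKpos]
    exact hK1
  have hlog2 : Real.log 2 ≤ 1 := (Real.log_le_sub_one_of_pos (by norm_num)).trans (by norm_num)
  have hlogK2 : Real.log K ≤ 1 + A * P := by
    refine (Real.log_le_log hKpos hK2).trans ?_
    rw [Real.log_mul (by norm_num) (Real.exp_pos _).ne', Real.log_exp]
    linarith
  have hAP1 : 1 ≤ A * P := hA1.trans hAP
  refine ⟨K, ?_, ?_, ?_, ?_⟩
  · have h1 : (K0 : ℝ) ≤ K := by linarith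
    exact_mod_cast h1
  · rw [← Real.log_le_iff_le_exp hKpos, ← hP]
    have h1 : (A + 1) * P ≤ C * P := mul_le_mul_of_nonneg_right (by linarith) (by linarith)
    linarith [mul_comm A P]
  · have h2 : A / ε ≤ Real.log K ^ (U + 1) := by
      calc A / ε = A * (1 / ε) := by ring
        _ ≤ A ^ (U + 1) * P ^ (U + 1) := by
          apply mul_le_mul _ hPU (by positivity) (by positivity)
          exact le_self_pow₀ hA1 (by omega)
        _ = (A * P) ^ (U + 1) := by rw [mul_pow]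
        _ ≤ _ := pow_le_pow_left₀ (by positivity) hlogK1 _
    have h3 : 1 / Real.log K ^ (U + 1) ≤ 1 / (A / ε) :=
      div_le_div_of_nonneg_left zero_le_one (by positivity) h2
    rw [one_div_div] at h3
    refine h3.trans ?_
    apply div_le_div_of_nonneg_left hε.le (by positivity)
    linarith
  · have h1 : ε ^ (1 + η) * P = ε := by
      rw [hP, ← Real.rpow_add hε]
      have : 1 + η + -η = 1 := by ring
      rw [this, Real.rpow_one]
    have h0 : 0 ≤ ε ^ (1 + η) / C := div_nonneg (Real.rpow_nonneg hε.le _) hCp.le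
    calc ε ^ (1 + η) / C * (1 + Real.log K) ≤ ε ^ (1 + η) / C * (3 * (A * P)) :=
          mul_le_mul_of_nonneg_left (by linarith) h0
      _ = (ε ^ (1 + η) * P) * (3 * A) / C := by ring
      _ = ε * (3 * A) / C := by rw [h1]
      _ ≤ ε * (3 * A) / (6 * A * C0) := by
          apply div_le_div_of_nonneg_left (by positivity) (by positivity)
          linarith
      _ = ε / (2 * C0) := by
          field_simp
          norm_num

/-- the Fourier coefficients of atomless measures and the masses of the dilates of arcs -/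
theorem quant_fourier (b : ℕ) (hb : 3 ≤ b) (η : ℝ) (hη : 0 < η) : ∃ C : ℝ, 1 ≤ C ∧
    ∀ (μ ν : Measure UnitAddCircle), IsProbabilityMeasure μ → IsProbabilityMeasure ν →
      NullSingletonClass μ → NullSingletonClass ν → ∀ n : ℕ, 1 ≤ n → ∀ ε : ℝ, 0 < ε → ε ≤ 1 →
      (∀ k : ℕ, 1 ≤ k → (k : ℝ) ≤ Real.exp (C * ε ^ (-η)) → ∀ d : ℕ, d < b →
        |μ.real ((fun x : UnitAddCircle => (k * n) • x) ⁻¹'
            arc ((d : ℝ) / b) (((d : ℝ) + 1) / b)) -
          ν.real ((fun x : UnitAddCircle => (k * n) • x) ⁻¹'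
            arc ((d : ℝ) / b) (((d : ℝ) + 1) / b))| ≤ ε ^ (1 + η) / C) →
      ‖∫ x, fourier (n : ℤ) x ∂μ - ∫ x, fourier (n : ℤ) x ∂ν‖ ≤ ε := by
  obtain ⟨U, hU⟩ : ∃ U : ℕ, U = ⌈1 / η⌉₊ := ⟨_, rfl⟩
  have hUη : 1 ≤ η * ((U + 1 : ℕ) : ℝ) := by
    have h1 : 1 / η ≤ U := by rw [hU]; exact Nat.le_ceil _
    rw [div_le_iff₀ hη] at h1
    push_cast
    nlinarith
  obtain ⟨C0, K0, hC0, hK0, h0⟩ := meas_bound hb U
  obtain ⟨C, hC, hpar⟩ := params η C0 U K0 hη hC0 hUη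
  refine ⟨C, hC, fun μ ν hμ hν hμ2 hν2 n hn ε hε hε1 h => ?_⟩
  have hb0 : (0 : ℝ) < b := by exact_mod_cast (by omega : 0 < b)
  have hn0 : (n : ℤ) ≠ 0 := by exact_mod_cast (by omega : n ≠ 0)
  have := noAtoms_dil n hn0 μ
  have := noAtoms_dil n hn0 ν
  obtain ⟨K, k1, k2, k3, k4⟩ := hpar ε hε hε1
  have h1 := h0 K k1 (law (dil n μ)) (law (dil n ν)) (ae_irrational _) (ae_irrational _)
    (ε ^ (1 + η) / C) (div_nonneg (Real.rpow_nonneg hε.le _) (by linarith))
    (fun k hk1 hk2 d hd => by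
      have hd1 : (d : ℝ) + 1 ≤ b := by exact_mod_cast hd
      have hA := meas_arc ((d : ℝ) / b) (((d : ℝ) + 1) / b) (by positivity)
        (by rw [div_le_one hb0]; exact hd1)
      rw [law_cell _ b k d (by omega) hd, law_cell _ b k d (by omega) hd,
        preimage_dil k n μ _ hA, preimage_dil k n ν _ hA]
      refine h k hk1 (le_trans ?_ k2) d hd
      exact_mod_cast hk2)
  have h2 := integral_law (dil n μ) 1
  have h3 := integral_law (dil n ν) 1
  rw [dil_fourier] at h2 h3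
  simp only [Int.cast_one, one_mul, mul_one] at h2 h3
  rw [← h2, ← h3]
  refine h1.trans ?_
  have hC0p : 0 < C0 := by linarith
  calc C0 * (ε ^ (1 + η) / C * (1 + Real.log K) + 1 / Real.log K ^ (U + 1))
      ≤ C0 * (ε / (2 * C0) + ε / (2 * C0)) :=
        mul_le_mul_of_nonneg_left (add_le_add k4 k3) hC0p.le
    _ = ε := by
        field_simp
        norm_num

end Pool.Agent.U798.FA
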